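import Pool.Agent.H92.EM.TB
import Pool.Agent.H43.EHD.EKN

/-!
# Row MKP of the board `emd_modules`: local constancy when all coordinates are powers
-/

set_option autoImplicit false

namespace Pool.Agent.H86.EMD

open scoped BigOperators ComplexConjugate ContDiff ComplexOrder
open MeasureTheory Pool.Agent.H92.EQ Pool.Agent.H43.EQ Pool.Agent.H92.EM

noncomputable section

/-- iterates of endomorphisms which fix the hyperplanes -/
theorem isM_iter (h12 : T_D12) {m k d : ℕ} {F : Fin (k + 1) → MvPolynomial (Fin (k + 1)) ℂ}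
    (hd : 1 ≤ d) (hF : IsM m d F) (n : ℕ) : IsM m (d ^ n) (iter F n) := by
  refine ⟨(h12 (k + 1) d F hd hF.isH 0 n).1, ?_⟩
  intro i hi
  induction n with
  | zero =>
    show MvPolynomial.X i = MvPolynomial.X i ^ (d ^ 0)
    rw [pow_zero, pow_one]
  | succ n ih =>
    show MvPolynomial.bind₁ (iter F n) (F i) = _
    rw [hF.diag i hi, map_pow, MvPolynomial.bind₁_X_right, ih, ← pow_mul, pow_succ]

theorem lowM_top {k : ℕ} (P : Matrix (Fin (k + 1)) (Fin (k + 1)) ℂ) :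
    lowM (k + 1) P = 1 := by
  funext i j
  unfold lowM
  rw [if_pos i.2]

/-- Row MKP. -/
theorem pf_MKP (hKJ : T_MKJ) (h12 : T_D12) (h6 : T_L6) (hP5 : T_P5) (hD7 : T_D7)
    (hL1 : T_L1) (hL2 : T_L2) (hW6 : T_W6) : T_MKP := by
  intro k d p F KK hk hd hp hF hLL q hN' φ u hφ hφ0 hu η δ hη hδ
  have hN : p + q + 1 = k + 1 := by omega
  have hc0 := ((hD7 (k + 1) p).2 q hN).1
  set c0 := mass q (om (k + 1) p) with hc0def
  obtain ⟨B, hB, hbφ, hbdφ⟩ := KJ_Hom0_bd h6 hL1 hL2 hW6 hφ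
  obtain ⟨cu, mu, hcu, hLu⟩ := hLL q u hu
  obtain ⟨K, hK, hKJ'⟩ := hKJ (k + 1) k d F le_rfl hk hd hF
  obtain ⟨n2, hn2⟩ := KN_asym d hd (K ^ mu) δ
    (η / (cu * c0) / (B * K) ^ mu) (by positivity) hδ (by positivity)
  obtain ⟨n3, hn3⟩ := KN_asym d hd 1 δ (1 / (2 * (k + 1))) one_pos hδ (by positivity)
  refine ⟨1, one_pos, fun Ks _ => ⟨0, max n2 n3, Nat.zero_le _, fun n hn S hCls A hA0 hA => ?_⟩⟩
  have hS := hCls.pf
  have hSm := hCls.ms
  have hnn2 : n2 ≤ n := (le_max_left _ _).trans hn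
  have hnn3 : n3 ≤ n := (le_max_right _ _).trans hn
  rw [Nat.sub_zero] at hA ⊢
  obtain ⟨hH, _, _, hSnadd, _⟩ := h12 (k + 1) d F (by omega) hF.isH 0 n
  have hE := isM_iter h12 (by omega) hF n
  have hPi := (h12 (k + 1) d F (by omega) hF.isH 0 0).2.2.2.2
  have hS1 : ProjForm (Sn F d 0 S) := hPi p S hS
  have hD1 : 1 ≤ d ^ n := Nat.one_le_pow _ _ (by omega)
  have hdR : (0 : ℝ) < d := by exact_mod_cast (by omega : 0 < d)
  set Φ := iter F n with hΦ
  set S1 := Sn F d 0 S with hS1def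
  -- the scale factor
  obtain ⟨Λ, hΛ⟩ : ∃ Λ : ℝ, Λ = (d : ℝ) ^ (p * n) := ⟨_, rfl⟩
  have hΛpos : 0 < Λ := by rw [hΛ]; positivity
  have hpull : ∀ z I J, pull Φ S1 z I J = ((Λ : ℝ) : ℂ) * Sn F d n S z I J := by
    intro z I J
    have e1 := hSnadd p S z
    rw [zero_add] at e1
    rw [e1]
    show pull Φ S1 z I J = (Λ : ℂ) * (((d : ℂ) ^ (p * n))⁻¹ * pull (iter F n) S1 z I J)
    have e2 : ((Λ : ℝ) : ℂ) = (d : ℂ) ^ (p * n) := by rw [hΛ]; push_cast; rfl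
    have e3 : (d : ℂ) ^ (p * n) ≠ 0 := by
      have : (d : ℂ) ≠ 0 := by exact_mod_cast (by omega : d ≠ 0)
      exact pow_ne_zero _ this
    rw [e2, ← mul_assoc, mul_inv_cancel₀ e3, one_mul]
  have hpp : pair φ (pull Φ S1) u = Λ * pair φ (Sn F d n S) u :=
    KN_pair φ _ _ u Λ hpull
  have hmass1 : mass q S1 = c0 := by
    rw [hS1def, (hP5 (k + 1) p q d S hN hS).2.1 F 0 (by omega) hF.isH, hSm]
  have hmassp : mass q (pull Φ S1) = Λ * c0 := by
    rw [(hP5 (k + 1) p q (d ^ n) S1 hN hS1).1 Φ hD1 hH, hmass1, hΛ]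
    push_cast
    rw [← pow_mul, mul_comm n p]
  -- the parameters
  obtain ⟨κ, hκ, hκ01, hκone, hκwd, hjac, hsec, hdet⟩ := hKJ' n 1 one_pos le_rfl
  have hKn1 : 1 ≤ K ^ (n + 1) := one_le_pow₀ hK
  obtain ⟨M, hM⟩ : ∃ M : ℝ, M = B * K ^ (n + 1) := ⟨_, rfl⟩
  have hM1 : 1 ≤ M := by rw [hM]; nlinarith
  have hMB : B ≤ M := by rw [hM]; nlinarith
  have hMK : K ^ (n + 1) ≤ M := by rw [hM]; nlinarith
  obtain ⟨τ, hτ⟩ : ∃ τ : ℝ, τ = Real.exp (-(δ * (d : ℝ) ^ n)) := ⟨_, rfl⟩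
  rw [← hτ] at hA
  have hτ0 : 0 ≤ τ := by rw [hτ]; positivity
  have hτ1 : τ ≤ 1 / (2 * (k + 1)) := by
    have := hn3 n hnn3
    rw [one_pow, one_mul] at this
    rw [hτ]
    exact this
  have hne : ∀ x : Fin (k + 1) → ℂ, nrm x = 1 → x ≠ 0 := by
    intro x hx h
    rw [h] at hx
    have : nrm (0 : Fin (k + 1) → ℂ) = 0 := by simp [nrm, nsq]
    rw [this] at hx
    norm_num at hx
  have hL1' := hLu (d ^ n) Φ hD1 hE φ M 1 hφ hM1 one_pos le_rfl
    (fun x hx => (hbφ x (hne x hx)).trans hMB)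
    (by
      intro x hx a
      have := hbdφ x (hne x hx) a
      rw [hx, mul_one] at this
      exact this.trans hMB)
    (fun x hx i a => (hjac x hx i a).trans
      (mul_le_mul_of_nonneg_right hMK (KJ_nrm_nonneg _)))
    (fun x hx i a b => (hsec x hx i a b).trans
      (mul_le_mul_of_nonneg_right hMK (KJ_nrm_nonneg _)))
    (by
      intro x hx _
      rw [lowM_top, Matrix.det_one, norm_one, Nat.sub_self, pow_zero, one_mul])
    S1 hS1 A τ hτ0 hτ1 hA0 hA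
  rw [hpp] at hL1'
  rw [← hΛ]
  refine hL1'.trans ?_
  rw [hmassp, div_one]
  have e1 := hn2 n hnn2
  have e5 : 0 < (B * K) ^ mu := by positivity
  rw [le_div_iff₀ e5] at e1
  have e2 : M ^ mu * τ ≤ η / (cu * c0) := by
    have e3 : M ^ mu * τ = (K ^ mu) ^ n * Real.exp (-(δ * (d : ℝ) ^ n)) * (B * K) ^ mu := by
      rw [hM, hτ, pow_succ]
      have : (B * (K ^ n * K)) ^ mu = (K ^ mu) ^ n * (B * K) ^ mu := by
        rw [mul_pow, mul_pow, mul_pow, ← pow_mul, ← pow_mul, mul_comm n mu]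
        ring
      rw [this]
      ring
    rw [e3]
    exact e1
  calc cu * M ^ mu * τ * (Λ * c0) = (cu * c0) * (M ^ mu * τ) * Λ := by ring
    _ ≤ (cu * c0) * (η / (cu * c0)) * Λ := by gcongr
    _ = η * Λ := by
        have : cu * c0 ≠ 0 := by positivity
        field_simp

end

end Pool.Agent.H86.EMD
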