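import Pool.Agent.H92.EM.TC
import Pool.Agent.H46.EHD.EPF
import Pool.Agent.H73.EM.MPA

/-!
Row MPF of the board emd_modules (MP_75a732_an): the first visit (after helper46's EPF).
-/

set_option autoImplicit false

namespace Pool.Agent.H86.EMD

open scoped BigOperators ComplexConjugate ContDiff ComplexOrder
open MeasureTheory
open Pool.Agent.H92.EQ Pool.Agent.H92.EM Pool.Agent.H80.EQ Pool.Agent.H14.EQ
open Pool.Agent.H73.EM (th0_pos bth_nonneg bth_cont bth_supp mX_near near_inj)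

/-- total mass of the bump -/
theorem bth_int (hB : T_MBU) {k : ℕ} {θ : ℝ} (hθ : 0 < θ) :
    Integrable (fun X : Fin (k + 1) → Fin (k + 1) → ℂ => bth θ X) ∧
      ∫ X : Fin (k + 1) → Fin (k + 1) → ℂ, bth θ X = 1 := by
  obtain ⟨C, _, h1, _⟩ := hB
  obtain ⟨_, _, _, _, hI, hi⟩ := h1 θ hθ
  have h2 : Integrable (fun x : Fin (k + 1) → ℂ => ∏ j, bs θ (x j)) :=
    Integrable.fintype_prod (f := fun _ : Fin (k + 1) => bs θ) fun _ => hI
  have h3 : ∫ x : Fin (k + 1) → ℂ, ∏ j, bs θ (x j) = 1 := by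
    rw [integral_fintype_prod_volume_eq_prod (fun _ : Fin (k + 1) => bs θ), hi,
      Finset.prod_const_one]
  refine ⟨Integrable.fintype_prod (f := fun _ : Fin (k + 1) => fun x : Fin (k + 1) → ℂ =>
      ∏ j, bs θ (x j)) fun _ => h2, ?_⟩
  unfold bth
  rw [integral_fintype_prod_volume_eq_prod (fun _ : Fin (k + 1) => fun x : Fin (k + 1) → ℂ =>
      ∏ j, bs θ (x j)), h3, Finset.prod_const_one]

theorem mX_det (m : ℕ) {k : ℕ} (X : Fin (k + 1) → Fin (k + 1) → ℂ)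
    (hX : ∀ i j, ‖X i j‖ ≤ th0 k) : (mX m X).det ≠ 0 := by
  intro h0
  obtain ⟨v, hv, hv0⟩ := Matrix.exists_mulVec_eq_zero_iff.2 h0
  exact hv (near_inj (mX m X) (fun i j => mX_near m X th0_pos.le hX i j) v hv0)

/-- the comparison of the value at the identity with means over the bumps -/
theorem bump_dom (hBU : T_MBU) (hTN : T_TN) (hP1 : T_P1) (hP3 : T_P3) (m : ℕ)
    {k D : ℕ}
    {Φ : Fin (k + 1) → MvPolynomial (Fin (k + 1)) ℂ} (hD : 1 ≤ D) (hΦ : IsH D Φ)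
    {σ : Form (Fin (k + 1)) k} (hσ : ProjForm σ) {ψ κ g : (Fin (k + 1) → ℂ) → ℝ}
    (hψ : ContinuousOn ψ {0}ᶜ) (hκ : Hom0 κ) (hg : Hom0 g)
    (h0 : ∀ z, z ≠ 0 → 0 ≤ κ z ∧ κ z ≤ g z) {b M : ℝ} (hM : 0 ≤ M)
    (hgw : ∀ z, z ≠ 0 → g z = b + M * ψ z) {B : ℝ} (hB : ∀ z, z ≠ 0 → |g z| ≤ B)
    {θ e E G : ℝ} (hθ : 0 < θ) (hθ1 : θ ≤ th0 k)
    (hI : Integrable (fun X : Fin (k + 1) → Fin (k + 1) → ℂ =>
      bth θ X * am ψ Φ σ (fun _ : Fin 0 => ell) (mX m X)))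
    (hI' : Integrable (fun X : Fin (k + 1) → Fin (k + 1) → ℂ =>
      bth (th0 k) X * am ψ Φ σ (fun _ : Fin 0 => ell) (mX m X)))
    (hT : |(∫ X : Fin (k + 1) → Fin (k + 1) → ℂ,
        bth θ X * am ψ Φ σ (fun _ : Fin 0 => ell) (mX m X)) -
      ∫ X : Fin (k + 1) → Fin (k + 1) → ℂ,
        bth (th0 k) X * am ψ Φ σ (fun _ : Fin 0 => ell) (mX m X)| ≤ E)
    (hG : ∫ X : Fin (k + 1) → Fin (k + 1) → ℂ,
      bth (th0 k) X * am g Φ σ (fun _ : Fin 0 => ell) (mX m X) ≤ G)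
    (hL : ∀ X : Fin (k + 1) → Fin (k + 1) → ℂ, (∀ i j, ‖X i j‖ ≤ θ) →
      pair κ (pull Φ σ) (fun _ : Fin 0 => ell) ≤
        am κ Φ σ (fun _ : Fin 0 => ell) (mX m X) + e) :
    pair κ (pull Φ σ) (fun _ : Fin 0 => ell) ≤ G + M * E + e := by
  have hN := fun A => (hTN (k + 1) k 0 D Φ σ g (fun _ : Fin 0 => ell) B rfl hD hΦ hσ hg
    (fun j => j.elim0) hB).2.2 A
  have hlin : ∀ A : Matrix (Fin (k + 1)) (Fin (k + 1)) ℂ, A.det ≠ 0 →
      am g Φ σ (fun _ : Fin 0 => ell) A =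
        b * ((D : ℝ) ^ k * mass 0 σ) + M * am ψ Φ σ (fun _ : Fin 0 => ell) A := by
    intro A hdet
    have h1 := pair_lin hP1 hP3 (hN A hdet).1 hψ b M hgw
    rw [(hN A hdet).2] at h1
    exact h1
  have hle : ∀ A : Matrix (Fin (k + 1)) (Fin (k + 1)) ℂ, A.det ≠ 0 →
      am κ Φ σ (fun _ : Fin 0 => ell) A ≤ am g Φ σ (fun _ : Fin 0 => ell) A :=
    fun A hdet => pair_mono' hP1 hP3 (hN A hdet).1 hκ.smooth.continuousOn
      hg.smooth.continuousOn fun z hz => (h0 z hz).2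
  obtain ⟨hb0, hb1⟩ := bth_int hBU (k := k) hθ
  obtain ⟨hc0, hc1⟩ := bth_int hBU (k := k) (θ := th0 k) th0_pos
  have hGf : b * ((D : ℝ) ^ k * mass 0 σ) + M * ∫ X : Fin (k + 1) → Fin (k + 1) → ℂ,
      bth (th0 k) X * am ψ Φ σ (fun _ : Fin 0 => ell) (mX m X) ≤ G := by
    have h1 : ∫ X : Fin (k + 1) → Fin (k + 1) → ℂ,
        bth (th0 k) X * am g Φ σ (fun _ : Fin 0 => ell) (mX m X) =
        ∫ X : Fin (k + 1) → Fin (k + 1) → ℂ,
        (bth (th0 k) X * (b * ((D : ℝ) ^ k * mass 0 σ)) +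
          M * (bth (th0 k) X * am ψ Φ σ (fun _ : Fin 0 => ell) (mX m X))) := by
      congr 1
      funext X
      by_cases hX : bth (th0 k) X = 0
      · rw [hX]
        ring
      · rw [hlin _ (mX_det m X fun i j => bth_supp hBU th0_pos hX i j)]
        ring
    rw [h1, integral_add (hc0.mul_const _) (hI'.const_mul M), integral_mul_const,
      integral_const_mul, hc1, one_mul] at hG
    exact hG
  have hfint : ∫ X : Fin (k + 1) → Fin (k + 1) → ℂ,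
      (bth θ X * (b * ((D : ℝ) ^ k * mass 0 σ) + e) +
        M * (bth θ X * am ψ Φ σ (fun _ : Fin 0 => ell) (mX m X))) =
      b * ((D : ℝ) ^ k * mass 0 σ) + e + M * ∫ X : Fin (k + 1) → Fin (k + 1) → ℂ,
        bth θ X * am ψ Φ σ (fun _ : Fin 0 => ell) (mX m X) := by
    rw [integral_add (hb0.mul_const _) (hI.const_mul M), integral_mul_const,
      integral_const_mul, hb1, one_mul]
  have h1 : pair κ (pull Φ σ) (fun _ : Fin 0 => ell) ≤
      ∫ X : Fin (k + 1) → Fin (k + 1) → ℂ,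
      (bth θ X * (b * ((D : ℝ) ^ k * mass 0 σ) + e) +
        M * (bth θ X * am ψ Φ σ (fun _ : Fin 0 => ell) (mX m X))) := by
    have h2 : pair κ (pull Φ σ) (fun _ : Fin 0 => ell) =
        ∫ X : Fin (k + 1) → Fin (k + 1) → ℂ,
          bth θ X * pair κ (pull Φ σ) (fun _ : Fin 0 => ell) := by
      rw [integral_mul_const, hb1, one_mul]
    rw [h2]
    refine integral_mono (hb0.mul_const _) ((hb0.mul_const _).add (hI.const_mul M)) ?_
    intro X
    change bth θ X * pair κ (pull Φ σ) (fun _ : Fin 0 => ell) ≤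
      bth θ X * (b * ((D : ℝ) ^ k * mass 0 σ) + e) +
        M * (bth θ X * am ψ Φ σ (fun _ : Fin 0 => ell) (mX m X))
    by_cases hX : bth θ X = 0
    · rw [hX]
      simp
    · have hX' := fun i j => bth_supp hBU hθ hX i j
      have hdet := mX_det m X fun i j => (hX' i j).trans hθ1
      have h3 := (hL X hX').trans (add_le_add_left (hle _ hdet) e)
      rw [hlin _ hdet] at h3
      have h4 := mul_le_mul_of_nonneg_left h3 (bth_nonneg hBU hθ X)
      refine h4.trans (le_of_eq ?_)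
      ring
  have h2 := (abs_le.1 hT).2
  have h3 := mul_le_mul_of_nonneg_left h2 hM
  rw [hfint] at h1
  linarith

/-- the densities `TF k b δ` -/
theorem TF_props (hD6 : T_D6) (hD7 : T_D7) (hL5 : T_L5) (hP3 : T_P3) (hP6 : T_P6) (k : ℕ)
    (b : Fin (k + 1 + 1)) {δ : ℝ} (hδ : 0 < δ) :
    ProjForm (TF k b δ) ∧
      mass 0 (TF k b δ) = mass 0 (om (k + 1 + 1) (k + 1)) := by
  have hw : Pot (wH (k := k + 1) b δ) := by
    have h1 := hL5 (k + 1 + 1) 1 (MvPolynomial.X b) δ le_rfl (MvPolynomial.isHomogeneous_X ℂ b)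
      hδ
    have h2 : (fun z : Fin (k + 1 + 1) → ℂ => (1 / (2 * ((1 : ℕ) : ℝ))) *
        Real.log (‖MvPolynomial.eval z (MvPolynomial.X b)‖ ^ 2 + δ ^ 2 * nsq z ^ 1)) =
        wH (k := k + 1) b δ := by
      funext z
      unfold wH
      rw [MvPolynomial.eval_X, pow_one]
      norm_num
    rwa [h2] at h1
  refine ⟨hD6 (k + 1 + 1) k _ _ (hD7 (k + 1 + 1) k).1 hw, ?_⟩
  have h1 := hP6 (k + 1 + 1) k 0 (om (k + 1 + 1) k) (wH (k := k + 1) b δ)
    (fun _ : Fin 0 => ell) (fun _ => 1)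
  have h2 := (hP3 (k + 1 + 1) k 1 (om (k + 1 + 1) k)
    (Fin.cons (α := fun _ => (Fin (k + 1 + 1) → ℂ) → ℝ) (wH (k := k + 1) b δ)
      (fun _ : Fin 0 => ell)) (by omega) (hD7 (k + 1 + 1) k).1 (by
        intro j
        refine Fin.cases ?_ (fun i => i.elim0) j
        exact hw)).2.2.1
  have h3 := ((hD7 (k + 1 + 1) k).2 1 (by omega)).2
  unfold mass at h2 h3 ⊢
  rw [← h3, ← h2, ← h1]
  rfl

/-- the estimate for one horizon, normalised form -/
theorem fv_oneM (hBU : T_MBU) (hMPA : T_MPA) (hMPL : T_MPL) (hMPR : T_MPR) (hPBD : T_PBD)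
    (hPVI : T_PVI) (hMKJ : T_MKJ) (hMKB : T_MKB) (hTN : T_TN) (hD6 : T_D6)
    (hD7 : T_D7) (hD12 : T_D12) (hL3 : T_L3) (hL5 : T_L5)
    (hL6 : T_L6) (hP1 : T_P1) (hP3 : T_P3) (hP5 : T_P5) (hP6 : T_P6) {m k d M : ℕ} {κ0 : ℝ}
    {F : Fin (k + 1 + 1) → MvPolynomial (Fin (k + 1 + 1)) ℂ}
    {P : MvPolynomial (Fin (k + 1 + 1)) ℂ} (hm : m ≤ k + 1) (hd : 2 ≤ d) (hFE : IsM m d F)
    (hP : NormE m F P M)
    (hLoc : LocLipE m (k + 1) (k + 1) 0) (hTG : TBmp m (k + 1) (k + 1) 0) :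
    ∃ C : ℝ, 0 < C ∧ ∀ (r : ℝ) (j : ℕ) (σ : Form (Fin (k + 1 + 1)) (k + 1)), 0 < r →
    r ≤ 1 / 2 → 1 ≤ j → ProjForm σ → InK (Zk m κ0) σ →
    mass 0 σ = mass 0 (om (k + 1 + 1) (k + 1)) →
    EE F d j σ (fun x => noV F (vis P M r) j 0 j x * vis P M r x) ≤
      C * (j / (d : ℝ) ^ j + 1 / Real.log (1 / r)) * mass 0 (om (k + 1 + 1) (k + 1)) := by
  have hF : IsH d F := hFE.isH
  obtain ⟨K, hK1, hK⟩ := hMKJ m (k + 1) d F (by omega) (Nat.succ_pos _) hd hFE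
  obtain ⟨c1, hc1, hc11, -, hrj⟩ := hMPR m (k + 1) d M F P hm (Nat.succ_pos k) hd hFE hP
  obtain ⟨Bp, hBp0, hBp'⟩ := (hL6 (k + 1 + 1)).1 (nv P M) (by
    unfold nv
    exact (MvPolynomial.continuous_eval _).norm.continuousOn.div
      (nrm_cont.pow _).continuousOn fun z hz => pow_ne_zero _ (nrm_pos hz).ne')
    (fun r z hr _ => nv_smul hP.hom (by exact_mod_cast hr.ne') z)
  have hBp : ∀ z, z ≠ 0 → nv P M z ≤ Bp := fun z hz => (le_abs_self _).trans (hBp' z hz)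
  set b : ℝ := (1 / 2) * Real.log (Bp ^ 2 + 5) with hbd
  have hb : 0 ≤ b := mul_nonneg (by norm_num) (Real.log_nonneg (by nlinarith))
  obtain ⟨C1, hC11, hC1⟩ := hPBD (k + 1 + 1) d M F P (Nat.succ_pos _) hd hF hP.hom b hb
  obtain ⟨cL, n, hcL, hLoc'⟩ := hLoc (fun _ : Fin 0 => ell) (fun j => j.elim0)
  obtain ⟨cT, hcT, hTG'⟩ := hTG
  obtain ⟨CA, hCA, hMPA'⟩ := hMPA m k κ0 (by omega)
  obtain ⟨CI, hCI⟩ := hMPL m k d M F P (by omega) hd hFE hP.hom hP.pos hP.ne hP.nx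
  have hKC : 1 ≤ K * C1 := by nlinarith
  obtain ⟨C2, hC2, hcon⟩ := consts hKC hc1 hc11 hcL (show (1 : ℝ) ≤ 4 by norm_num) n
    (k + 1 + 1) (Nat.succ_pos _)
  have hom := hD7 (k + 1 + 1) (k + 1)
  have hc0 := (hom.2 0 rfl).1
  set c0 : ℝ := mass 0 (om (k + 1 + 1) (k + 1)) with hc0d
  have hM0 : (0 : ℝ) ≤ M := Nat.cast_nonneg M
  set CG : ℝ := CA * (b * c0 + |CI|) * c0 with hCG
  have hCG0 : 0 ≤ CG := by positivity
  refine ⟨2 * (0 + CG / c0 + 1) + 2 * M * cT * C2, by positivity, ?_⟩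
  intro r j σ hr hr2 hj hσ hKσ hmass
  have hr1 : r ≤ 1 := by linarith
  have hlr : 0 < Real.log (1 / r) := Real.log_pos (by rw [lt_div_iff₀ hr]; linarith)
  obtain ⟨θ, hθ, hθ1, hτ1, hτ2, hτ3⟩ := hcon r j hr hr2 hj
  have hd1 : 1 ≤ d := by omega
  have hD12' := hD12 (k + 1 + 1) d F hd1 hF j j
  have hit : ∀ i, IsH (d ^ i) (iter F i) := fun i =>
    (hD12 (k + 1 + 1) d F hd1 hF i i).1
  have hitE : IsM m (d ^ j) (iter F j) :=
    (hMKB m (k + 1) d F hm (Nat.succ_pos k) hd hFE).2.2.2.2.2.2.2 j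
  have hne : ∀ i x, x ≠ 0 → ev (iter F i) x ≠ 0 := fun i x hx h => hx ((hit i).nd x h)
  have hD : 1 ≤ d ^ j := Nat.one_le_pow _ _ (by omega)
  have hv := hPVI (k + 1 + 1) M P r hP.hom hr
  have hnb := noV_bd F hv.2.1 j 0 j
  obtain ⟨κ, hκd⟩ : ∃ κ : (Fin (k + 1 + 1) → ℂ) → ℝ, κ = fun x =>
      noV F (vis P M r) j 0 j x *
        (b - (1 / 2) * Real.log (nv P M x ^ 2 + r ^ 2)) := ⟨_, rfl⟩
  obtain ⟨hκ, hκb, hκw⟩ := hC1 j r hr hr1 κ hκd
  have hw : Pot (ell : (Fin (k + 1 + 1) → ℂ) → ℝ) := (hL3 (k + 1 + 1)).1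
  have hw' : Pot (we P M r) := hL5 (k + 1 + 1) M P r hP.pos hP.hom hr
  have hg := hom_g (M := M) hw hw' b
  have hgz : ∀ z : Fin (k + 1 + 1) → ℂ, z ≠ 0 → b + M * (ell z - we P M r z) =
      b - (1 / 2) * Real.log (nv P M z ^ 2 + r ^ 2) := fun z hz => g_eq hP.pos P hr b hz
  have h0 : ∀ z, z ≠ 0 → 0 ≤ κ z ∧ κ z ≤ b + M * (ell z - we P M r z) := by
    intro z hz
    rw [hgz z hz, hκd]
    have h1 := (vis_le hPVI hP.hom hr hr2 hBp hz).1
    exact ⟨mul_nonneg (hnb z).1 h1, mul_le_of_le_one_left h1 (hnb z).2⟩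
  obtain ⟨Bg, -, hBg⟩ := (hL6 (k + 1 + 1)).1 _ hg.smooth.continuousOn
    (fun s z hs hz => hg.hom s z (by exact_mod_cast hs.ne') hz)
  have hKn : 1 ≤ K ^ (j + 1) := one_le_pow₀ hK1
  have hCn : 1 ≤ C1 ^ (j + 1) := one_le_pow₀ hC11
  have hr3 : r ^ 3 ≤ 1 := pow_le_one₀ hr.le hr1
  have hr30 : 0 < r ^ 3 := by positivity
  have hKCn : (K * C1) ^ (j + 1) = K ^ (j + 1) * C1 ^ (j + 1) := mul_pow _ _ _
  have hM1 : K ^ (j + 1) ≤ (K * C1) ^ (j + 1) / r ^ 3 := by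
    rw [le_div_iff₀ hr30, hKCn]
    exact mul_le_mul_of_nonneg_left (hr3.trans hCn) (by linarith)
  have hM2 : C1 ^ (j + 1) / r ^ 3 ≤ (K * C1) ^ (j + 1) / r ^ 3 := by
    refine div_le_div_of_nonneg_right ?_ hr30.le
    rw [hKCn]
    nlinarith
  have hM3 : C1 / r ≤ (K * C1) ^ (j + 1) / r ^ 3 := by
    refine le_trans ?_ hM2
    refine div_le_div₀ (by linarith) (le_self_pow₀ hC11 (by omega)) hr30 ?_
    exact pow_le_of_le_one hr.le hr1 (by norm_num)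
  have hρ0 : 0 < (c1 * r) ^ j := by positivity
  have hρ1 : (c1 * r) ^ j ≤ 1 := pow_le_one₀ (by positivity) (by nlinarith)
  obtain ⟨_, -, -, -, -, hj1, hj2, -⟩ := hK j 1 one_pos le_rfl
  have hloc := hLoc' (d ^ j) (iter F j) hD hitE κ ((K * C1) ^ (j + 1) / r ^ 3)
    ((c1 * r) ^ j) hκ (hKn.trans hM1) hρ0 hρ1 (fun x hx => (hκb x hx).trans hM3)
    (fun x hx a => (hκw x hx a).trans hM2)
    (fun x hx i a => (hj1 x hx i a).trans
      (mul_le_mul_of_nonneg_right hM1 (Real.sqrt_nonneg _)))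
    (fun x hx i a c => (hj2 x hx i a c).trans
      (mul_le_mul_of_nonneg_right hM1 (Real.sqrt_nonneg _)))
    (by
      intro x hx hkx
      have hx0 : x ≠ 0 := by
        rintro rfl
        have h2 : nrm (0 : Fin (k + 1 + 1) → ℂ) = 0 := by simp [nrm, nsq]
        rw [h2] at hx
        exact zero_ne_one hx
      have h1 : noV F (vis P M r) j 0 j x ≠ 0 := by
        intro h
        refine hkx ?_
        rw [hκd]
        change _ * _ = (0 : ℝ)
        rw [h, zero_mul]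
      have h2 := hrj j r x hx0 hr hr1 fun i hi hij => noV_ne hPVI hP.hom hr F h1 hi hij
      unfold relL at h2
      rw [hx, one_pow, mul_one, le_div_iff₀ (pow_pos (nrm_pos (hne j x hx0)) _)] at h2
      exact h2) σ hσ
  have hmp : mass 0 (pull (iter F j) σ) = ((d ^ j : ℕ) : ℝ) ^ (k + 1) * c0 := by
    rw [(hP5 (k + 1 + 1) (k + 1) 0 (d ^ j) σ rfl hσ).1 (iter F j) hD (hit j), hmass]
  have hDk : 0 < ((d ^ j : ℕ) : ℝ) ^ (k + 1) := by
    have : (0 : ℝ) < ((d ^ j : ℕ) : ℝ) := by exact_mod_cast hD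
    positivity
  have hk2 : (0 : ℝ) < 2 * ((k + 1 + 1 : ℕ) : ℝ) := by positivity
  have hθ4 : θ ≤ th0 (k + 1) := by
    unfold th0
    rw [le_div_iff₀ (by positivity)]
    rw [le_div_iff₀ hk2] at hτ1
    push_cast at hτ1 ⊢
    linarith
  have hθ5 : θ ≤ 1 / (2 * (((k + 1 : ℕ) : ℝ) + 1)) := by
    rw [le_div_iff₀ (by positivity)]
    rw [le_div_iff₀ hk2] at hτ1
    push_cast at hτ1 ⊢
    nlinarith
  have hT := hTG' (d ^ j) (iter F j) hD (hit j) ell (we P M r) (fun _ : Fin 0 => ell) hw hw'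
    (fun i => i.elim0) σ hσ
  have hTθ := hT θ hθ hθ4
  have hT0 := hT (th0 (k + 1)) th0_pos le_rfl
  rw [hmass] at hTθ
  set Dk : ℝ := ((d ^ j : ℕ) : ℝ) ^ (k + 1) with hDkd
  have hpow : (d : ℝ) ^ ((k + 1) * j) = Dk := by
    rw [hDkd]
    push_cast
    rw [← pow_mul, mul_comm]
  have hGb0 : ∀ T : Form (Fin (k + 1 + 1)) (k + 1), ProjForm T →
      mass 0 T = mass 0 (om (k + 1 + 1) (k + 1)) →
      EE F d j T (fun z => -(1 / 2) * Real.log (nv P M z ^ 2 + r ^ 2)) ≤ CI →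
      pair (fun z => b + M * (ell z - we P M r z)) (pull (iter F j) T)
      (fun _ : Fin 0 => ell) ≤ Dk * (b * c0 + |CI|) := by
    intro T hτ hτm h3
    have h1 := pair_Sn F d j T (fun z => b + M * (ell z - we P M r z))
      (fun _ : Fin 0 => ell)
    rw [hpow] at h1
    have hS : ProjForm (Sn F d j T) := hD12'.2.2.2.2 (k + 1) _ hτ
    have h2 := pair_lin hP1 hP3 hS (hw.smooth.sub hw'.smooth).continuousOn b M
      (g := fun z => b + M * (ell z - we P M r z)) (fun z _ => rfl)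
    rw [(hP5 (k + 1 + 1) (k + 1) 0 d _ rfl hτ).2.1 F j hd1 hF, hτm] at h2
    unfold EE at h3
    rw [ki_congr (Nat.succ_pos (k + 1))
      (φ := fun z => -(1 / 2) * Real.log (nv P M z ^ 2 + r ^ 2))
      (ψ := fun z => ell z - we P M r z) (S' := Sn F d j T)
      (v := fun _ : Fin 0 => ell) (M : ℝ) (by
        intro z hz
        have h4 := hgz z hz
        have h5 : -(1 / 2) * Real.log (nv P M z ^ 2 + r ^ 2) =
          M * (ell z - we P M r z) := by linarith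
        rw [h5]
        ring)] at h3
    have h6 : pair (fun z => b + M * (ell z - we P M r z))
        (pull (iter F j) T) (fun _ : Fin 0 => ell) =
        Dk * pair (fun z => b + M * (ell z - we P M r z))
        (Sn F d j T) (fun _ : Fin 0 => ell) := by
      rw [h1, ← mul_assoc, mul_inv_cancel₀ hDk.ne', one_mul]
    rw [h6]
    refine mul_le_mul_of_nonneg_left ?_ hDk.le
    rw [h2]
    have h7 := le_abs_self CI
    linarith
  have hG := hMPA' (d ^ j) (iter F j) hD (hit j) _ (fun _ : Fin 0 => ell) σ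
    (Dk * (b * c0 + |CI|)) hg (fun z hz => (h0 z hz).1.trans (h0 z hz).2) hσ hKσ
    (by positivity) (hGb0 _ hom.1 rfl (hCI j r hr hr1).1)
    (fun b' δ hb' hδ hδ1 => by
      obtain ⟨hτ, hτm⟩ := TF_props hD6 hD7 hL5 hP3 hP6 k b' hδ
      exact hGb0 _ hτ hτm ((hCI j r hr hr1).2 b' δ hb' hδ hδ1))
  rw [hmass] at hG
  have hG' : CA * (Dk * (b * c0 + |CI|)) * c0 ≤ Dk * (0 * c0 + CG) := by
    rw [hCG]
    exact le_of_eq (by ring)
  have hdom := bump_dom hBU hTN hP1 hP3 m hD (hit j) hσ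
    (hw.smooth.sub hw'.smooth).continuousOn hκ hg h0 hM0 (fun z _ => rfl) hBg hθ hθ4 hTθ.1
    hT0.1 hTθ.2 hG (e := Dk * c0) (by
      intro X hX
      have h1 := hloc (mX m X) θ hθ.le hθ5 (by
          intro i l hi hl
          unfold mX msk
          rw [if_pos ⟨hi, hl⟩])
        (fun i l => mX_near m X hθ.le hX i l)
      rw [hmp] at h1
      have h2 : cL * ((K * C1) ^ (j + 1) / r ^ 3 / (c1 * r) ^ j) ^ n * θ *
          (Dk * c0) ≤ 1 * (Dk * c0) := by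
        refine mul_le_mul_of_nonneg_right (le_trans ?_ hτ2) (by positivity)
        exact mul_le_mul_of_nonneg_left (by linarith) (by positivity)
      have h3 := (abs_le.1 (h1.trans h2)).1
      linarith)
  have hSσ : ProjForm (Sn F d j σ) := hD12'.2.2.2.2 (k + 1) _ hσ
  have hvis : EE F d j σ (fun x => noV F (vis P M r) j 0 j x * vis P M r x) ≤
      EE F d j σ (fun x => 1 / Real.log (1 / r) * κ x) := by
    unfold EE
    refine pair_mono' hP1 hP3 hSσ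
      ((noV_cont hv.1 hne j 0 j).mul hv.1.smooth.continuousOn)
      (continuousOn_const.mul hκ.smooth.continuousOn) fun z hz => ?_
    have h1 := (vis_le hPVI hP.hom hr hr2 hBp hz).2
    rw [hκd]
    change _ ≤ 1 / Real.log (1 / r) * (noV F (vis P M r) j 0 j z * _)
    calc noV F (vis P M r) j 0 j z * vis P M r z ≤ noV F (vis P M r) j 0 j z *
        ((b - (1 / 2) * Real.log (nv P M z ^ 2 + r ^ 2)) / Real.log (1 / r)) :=
        mul_le_mul_of_nonneg_left h1 (hnb z).1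
      _ = _ := by ring
  have hEκ : EE F d j σ (fun x => 1 / Real.log (1 / r) * κ x) =
      1 / Real.log (1 / r) * (Dk⁻¹ * pair κ (pull (iter F j) σ) (fun _ : Fin 0 => ell)) := by
    unfold EE
    rw [← hpow, ← pair_Sn]
    exact ki_congr (Nat.succ_pos (k + 1)) _ fun z _ => by ring
  refine hvis.trans ?_
  rw [hEκ]
  have hGn : 0 ≤ CA * (Dk * (b * c0 + |CI|)) * c0 := by positivity
  have hlθ : 0 ≤ Real.log (1 / θ) := Real.log_nonneg (by
    rw [le_div_iff₀ hθ]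
    linarith)
  have hEn : 0 ≤ (M : ℝ) * (cT * (1 + Real.log (1 / θ)) * (Dk / ((d ^ j : ℕ) : ℝ)) * c0) := by
    have : (0 : ℝ) < ((d ^ j : ℕ) : ℝ) := by exact_mod_cast hD
    positivity
  refine final_ineq hlr hDk hc0 le_rfl hCG0 hM0 hcT.le hC2.le (Nat.cast_nonneg j)
    (show (0 : ℝ) < ((d ^ j : ℕ) : ℝ) by exact_mod_cast hD) (by push_cast; rfl)
    (G := CA * (Dk * (b * c0 + |CI|)) * c0) (lt := Real.log (1 / θ)) ?_ hG' hτ3
  have hDc : 0 ≤ Dk * c0 := by positivity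
  linarith

/-- Row MPF. -/
theorem pf_MPF (hMPA : T_MPA) (hMPL : T_MPL) (hMPR : T_MPR) (hMKJ : T_MKJ) (hMKB : T_MKB)
    (hBU : T_MBU) (hPBD : T_PBD) (hPVI : T_PVI) (hTN : T_TN) (hD6 : T_D6)
    (hD7 : T_D7) (hD12 : T_D12) (hL3 : T_L3) (hL5 : T_L5)
    (hL6 : T_L6) (hP1 : T_P1) (hP3 : T_P3) (hP5 : T_P5) (hP6 : T_P6) (hPDE : T_PDE) :
    T_MPF := by
  intro m k d M κ0 F P hm hd hFE hP hLoc hTG
  have hF : IsH d F := hFE.isH
  obtain ⟨C, hC, h⟩ := fv_oneM hBU hMPA hMPL hMPR hPBD hPVI hMKJ hMKB hTN hD6 hD7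
    hD12 hL3 hL5 hL6 hP1 hP3 hP5 hP6 (κ0 := κ0) hm hd hFE hP hLoc hTG
  refine ⟨C, hC, fun r j σ hr hr2 hj hσ hKσ => ?_⟩
  have hm0 : 0 ≤ mass 0 σ := (hP5 (k + 1 + 1) (k + 1) 0 d σ rfl hσ).2.2
  have hmS : mass 0 (Sn F d j σ) = mass 0 σ :=
    (hP5 (k + 1 + 1) (k + 1) 0 d σ rfl hσ).2.1 F j (by omega) hF
  have hSσ : ProjForm (Sn F d j σ) :=
    (hD12 (k + 1 + 1) d F (by omega) hF j j).2.2.2.2 (k + 1) _ hσ
  have hlr : 0 < Real.log (1 / r) := Real.log_pos (by rw [lt_div_iff₀ hr]; linarith)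
  have hx : 0 ≤ (j : ℝ) / (d : ℝ) ^ j + 1 / Real.log (1 / r) := by positivity
  have hv := (hPVI (k + 1 + 1) M P r hP.hom hr).2.1
  by_cases hm : mass 0 σ = 0
  · have h1 := (hP3 (k + 1 + 1) (k + 1) 0 _ (fun _ : Fin 0 => ell) rfl hSσ
      (fun i => i.elim0)).2.2.2 (fun x => noV F (vis P M r) j 0 j x * vis P M r x) 1 (by
        intro z _
        have h2 := noV_bd F hv j 0 j z
        have h3 := hv z
        rw [abs_of_nonneg (mul_nonneg h2.1 h3.1)]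
        exact mul_le_one₀ h2.2 h3.1 h3.2)
    rw [hmS, hm, mul_zero] at h1
    rw [hm, mul_zero]
    exact (le_abs_self _).trans h1
  · have hmp : 0 < mass 0 σ := lt_of_le_of_ne hm0 (Ne.symm hm)
    have hc0 := ((hD7 (k + 1 + 1) (k + 1)).2 0 rfl).1
    set l : ℝ := mass 0 (om (k + 1 + 1) (k + 1)) / mass 0 σ with hl
    have hl0 : 0 < l := div_pos hc0 hmp
    have hσ' : ProjForm (dens (fun _ => l) σ) :=
      hPDE (k + 1) (fun _ => l) σ hσ ⟨contDiffOn_const, fun _ _ _ _ => rfl⟩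
        fun _ _ => hl0.le
    have hK' : InK (Zk m κ0) (dens (fun _ => l) σ) := by
      intro z hz hzK I J
      change (l : ℂ) * σ z I J = 0
      rw [hKσ z hz hzK I J, mul_zero]
    have hm' : mass 0 (dens (fun _ => l) σ) = mass 0 (om (k + 1 + 1) (k + 1)) := by
      unfold mass
      rw [pair_sc (S := dens (fun _ => l) σ) (S' := σ) l (fun z I J => rfl)]
      change l * mass 0 σ = mass 0 (om (k + 1 + 1) (k + 1))
      rw [hl, div_mul_cancel₀ _ hm]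
    have h1 := h r j (dens (fun _ => l) σ) hr hr2 hj hσ' hK' hm'
    unfold EE at h1 ⊢
    rw [pair_sc (S' := Sn F d j σ) l (fun z I J => dens_Sn F d j l σ z I J)] at h1
    have h2 : mass 0 (om (k + 1 + 1) (k + 1)) = l * mass 0 σ := by
      rw [hl, div_mul_cancel₀ _ hm]
    rw [h2] at h1
    have h3 : l * pair (fun x => noV F (vis P M r) j 0 j x * vis P M r x) (Sn F d j σ)
        (fun _ : Fin 0 => ell) ≤
        l * (C * (j / (d : ℝ) ^ j + 1 / Real.log (1 / r)) * mass 0 σ) := by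
      refine h1.trans (le_of_eq ?_)
      ring
    exact le_of_mul_le_mul_left h3 hl0

end Pool.Agent.H86.EMD
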